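import Pool.Agent.U530.TK.Near

/-!
# Small covers: countable index sets, unions, images
-/

set_option autoImplicit false

open Set Metric Filter Topology MeasureTheory TopologicalSpace
open scoped ENNReal NNReal

namespace Pool.Agent.U530.TK

open Pool.Agent.U26.TK

variable {n : ℕ}

theorem small_of_countable {s : ℝ} (hs : 0 < s) {ε : ℝ≥0∞} {A : Set (EuclideanSpace ℝ (Fin n))}
    {κ : Type} [Countable κ] (t : κ → Set (EuclideanSpace ℝ (Fin n))) (ho : ∀ i, IsOpen (t i))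
    (hA : A ⊆ ⋃ i, t i) (h : ∑' i, ediam (t i) ^ s < ε) : Small s ε A := by
  classical
  have : Encodable κ := Encodable.ofCountable κ
  refine ⟨fun i => ⋃ b ∈ Encodable.decode₂ κ i, t b, fun i => isOpen_biUnion fun b _ => ho b, ?_, ?_⟩
  · rw [Encodable.iUnion_decode₂]
    exact hA
  · have h1 := tsum_iUnion_decode₂ (fun S : Set (EuclideanSpace ℝ (Fin n)) => ediam S ^ s)
      (by simp [ENNReal.zero_rpow_of_pos hs]) t
    rw [h1]
    exact h

theorem small_iUnion {s : ℝ} (hs : 0 < s) {κ : Type} [Fintype κ] [Nonempty κ]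
    {A : κ → Set (EuclideanSpace ℝ (Fin n))} {ε : κ → ℝ≥0∞} (h : ∀ k, Small s (ε k) (A k)) :
    Small s (∑ k, ε k) (⋃ k, A k) := by
  choose t ho hA hsum using h
  refine small_of_countable hs (κ := κ × ℕ) (fun p => t p.1 p.2) (fun p => ho p.1 p.2) ?_ ?_
  · intro x hx
    obtain ⟨k, hk⟩ := mem_iUnion.1 hx
    obtain ⟨j, hj⟩ := mem_iUnion.1 (hA k hk)
    exact mem_iUnion.2 ⟨(k, j), hj⟩
  · rw [ENNReal.tsum_prod (f := fun k j => ediam (t k j) ^ s), tsum_fintype]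
    exact ENNReal.sum_lt_sum_of_nonempty Finset.univ_nonempty fun k _ => hsum k

theorem small_mono {s : ℝ} {ε ε' : ℝ≥0∞} {A B : Set (EuclideanSpace ℝ (Fin n))} (hε : ε ≤ ε')
    (hAB : A ⊆ B) (h : Small s ε B) : Small s ε' A := by
  obtain ⟨t, h1, h2, h3⟩ := h
  exact ⟨t, h1, hAB.trans h2, h3.trans_le hε⟩

theorem small_image {s : ℝ} (hs : 0 < s) {ε : ℝ≥0∞} {A : Set (EuclideanSpace ℝ (Fin n))}
    (h : Small s ε A) (c : EuclideanSpace ℝ (Fin n))
    (T : EuclideanSpace ℝ (Fin n) ≃L[ℝ] EuclideanSpace ℝ (Fin n)) {D : ℝ≥0}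
    (hD : ‖(T : EuclideanSpace ℝ (Fin n) →L[ℝ] EuclideanSpace ℝ (Fin n))‖₊ ≤ D) (hD0 : 0 < D) :
    Small s ((D : ℝ≥0∞) ^ s * ε) ((fun x => c + T x) '' A) := by
  obtain ⟨t, h1, h2, h3⟩ := h
  have hL : LipschitzWith D (fun x => c + T x) := by
    refine LipschitzWith.of_dist_le_mul fun x y => ?_
    rw [dist_add_left]
    refine ((T : EuclideanSpace ℝ (Fin n) →L[ℝ] EuclideanSpace ℝ (Fin n)).lipschitz.dist_le_mul
      x y).trans ?_
    gcongr
  refine ⟨fun i => (fun x => c + T x) '' t i, fun i => ?_, ?_, ?_⟩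
  · have e1 : (fun x => c + T x) = (Homeomorph.addLeft c) ∘ T.toHomeomorph := rfl
    dsimp only
    rw [e1, image_comp]
    exact (Homeomorph.addLeft c).isOpenMap _ (T.toHomeomorph.isOpenMap _ (h1 i))
  · rw [← image_iUnion]
    exact image_mono h2
  · have h4 : ∑' i, ediam ((fun x => c + T x) '' t i) ^ s ≤
        ∑' i, (D : ℝ≥0∞) ^ s * ediam (t i) ^ s := by
      refine ENNReal.tsum_le_tsum fun i => ?_
      rw [← ENNReal.mul_rpow_of_nonneg _ _ hs.le]
      exact ENNReal.rpow_le_rpow (hL.ediam_image_le _) hs.le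
    rw [ENNReal.tsum_mul_left] at h4
    refine h4.trans_lt ?_
    have h5 : (D : ℝ≥0∞) ^ s ≠ 0 := by
      refine (ENNReal.rpow_pos ?_ ENNReal.coe_ne_top).ne'
      exact_mod_cast hD0
    exact ENNReal.mul_lt_mul_right h5 (ENNReal.rpow_ne_top_of_nonneg hs.le ENNReal.coe_ne_top) h3

theorem small_finite {s : ℝ} (hs : 0 < s) {P : Set (EuclideanSpace ℝ (Fin n))} (hP : P.Finite)
    {ε : ℝ≥0∞} (hε : 0 < ε) : Small s ε P := by
  refine small_of_zero hs ?_ hε
  have : NullSingletonClass (μH[s] : Measure (EuclideanSpace ℝ (Fin n))) :=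
    Measure.nullSingletonClass_hausdorff (EuclideanSpace ℝ (Fin n)) hs
  exact hP.measure_zero _

/-- Copies of a set with small covers have small covers. -/
theorem small_copies {s : ℝ} (hs : 0 < s) {ι : Type} [Fintype ι] (c : ι → EuclideanSpace ℝ (Fin n))
    (T : ι → (EuclideanSpace ℝ (Fin n) ≃L[ℝ] EuclideanSpace ℝ (Fin n)))
    {P : Set (EuclideanSpace ℝ (Fin n))} (hP : P.Finite) {η : ℝ≥0∞} (hη : 0 < η) :
    ∃ ε : ℝ≥0∞, 0 < ε ∧ ∀ A : Set (EuclideanSpace ℝ (Fin n)), Small s ε A →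
      Small s η ((⋃ i, (fun x => c i + T i x) '' A) ∪ P) := by
  classical
  rcases eq_or_ne η ∞ with rfl | hηt
  · refine ⟨1, one_pos, fun A hA => ?_⟩
    obtain ⟨D, hD0, hD⟩ : ∃ D : ℝ≥0, 0 < D ∧ ∀ i,
        ‖(T i : EuclideanSpace ℝ (Fin n) →L[ℝ] EuclideanSpace ℝ (Fin n))‖₊ ≤ D :=
      ⟨(∑ i, ‖(T i : EuclideanSpace ℝ (Fin n) →L[ℝ] EuclideanSpace ℝ (Fin n))‖₊) + 1, by positivity,
        fun i => (Finset.single_le_sum (f := fun i =>
          ‖(T i : EuclideanSpace ℝ (Fin n) →L[ℝ] EuclideanSpace ℝ (Fin n))‖₊)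
          (fun _ _ => zero_le) (Finset.mem_univ i)).trans (le_add_of_nonneg_right zero_le)⟩
    have h1 := small_iUnion hs (κ := Option ι)
      (A := fun o => o.elim P (fun i => (fun x => c i + T i x) '' A))
      (ε := fun o => o.elim 1 (fun _ => (D : ℝ≥0∞) ^ s * 1)) (by
        intro o
        cases o with
        | none => exact small_finite hs hP one_pos
        | some i => exact small_image hs hA (c i) (T i) (hD i) hD0)
    refine small_mono le_top ?_ h1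
    rintro x (hx | hx)
    · obtain ⟨i, hi⟩ := mem_iUnion.1 hx
      exact mem_iUnion.2 ⟨some i, hi⟩
    · exact mem_iUnion.2 ⟨none, hx⟩
  obtain ⟨D, hD0, hD⟩ : ∃ D : ℝ≥0, 0 < D ∧ ∀ i,
      ‖(T i : EuclideanSpace ℝ (Fin n) →L[ℝ] EuclideanSpace ℝ (Fin n))‖₊ ≤ D :=
    ⟨(∑ i, ‖(T i : EuclideanSpace ℝ (Fin n) →L[ℝ] EuclideanSpace ℝ (Fin n))‖₊) + 1, by positivity,
      fun i => (Finset.single_le_sum (f := fun i =>
        ‖(T i : EuclideanSpace ℝ (Fin n) →L[ℝ] EuclideanSpace ℝ (Fin n))‖₊)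
        (fun _ _ => zero_le) (Finset.mem_univ i)).trans (le_add_of_nonneg_right zero_le)⟩
  have hDs0 : (D : ℝ≥0∞) ^ s ≠ 0 := (ENNReal.rpow_pos (by exact_mod_cast hD0) ENNReal.coe_ne_top).ne'
  have hDst : (D : ℝ≥0∞) ^ s ≠ ∞ := ENNReal.rpow_ne_top_of_nonneg hs.le ENNReal.coe_ne_top
  set N : ℝ≥0∞ := (Fintype.card ι : ℝ≥0∞) + 1 with hN
  have hN0 : N ≠ 0 := by rw [hN]; simp
  have hNt : N ≠ ∞ := by rw [hN]; finiteness
  have hη2 : 0 < η / N := ENNReal.div_pos hη.ne' hNt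
  refine ⟨η / N / (D : ℝ≥0∞) ^ s, ENNReal.div_pos hη2.ne' hDst, fun A hA => ?_⟩
  have e1 : (D : ℝ≥0∞) ^ s * (η / N / (D : ℝ≥0∞) ^ s) = η / N :=
    ENNReal.mul_div_cancel hDs0 hDst
  have h1 := small_iUnion hs (κ := Option ι)
    (A := fun o => o.elim P (fun i => (fun x => c i + T i x) '' A))
    (ε := fun _ => η / N) (by
      intro o
      cases o with
      | none => exact small_finite hs hP hη2
      | some i =>
        have := small_image hs hA (c i) (T i) (hD i) hD0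
        rw [e1] at this
        exact this)
  refine small_mono (le_of_eq ?_) ?_ h1
  · rw [Finset.sum_const, Finset.card_univ, Fintype.card_option, nsmul_eq_mul]
    push_cast
    rw [← hN]
    exact ENNReal.mul_div_cancel hN0 hNt
  · rintro x (hx | hx)
    · obtain ⟨i, hi⟩ := mem_iUnion.1 hx
      exact mem_iUnion.2 ⟨some i, hi⟩
    · exact mem_iUnion.2 ⟨none, hx⟩

end Pool.Agent.U530.TK
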