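import Pool.Agent.U530.TK.Norm

/-!
# Uniform lower bounds for all Kakeya sets, or typical Kakeya sets are small
-/

set_option autoImplicit false

open Set Metric Filter Topology MeasureTheory TopologicalSpace
open scoped ENNReal NNReal

namespace Pool.Agent.U530.TK

open Pool.Agent.U26.TK

noncomputable section

variable {n : ℕ}

theorem small_of_cover {s : ℝ} (hs : 0 < s) {A : Set (EuclideanSpace ℝ (Fin n))} {ε : ℝ≥0∞}
    (t : ℕ → Set (EuclideanSpace ℝ (Fin n))) (hA : A ⊆ ⋃ i, t i)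
    (h : ∑' i, ediam (t i) ^ s < ε) : Small s ε A := by
  have hfin : ∀ i, ediam (t i) ^ s ≠ ∞ := fun i =>
    ((ENNReal.le_tsum i).trans_lt (h.trans_le le_top)).ne
  have hfin' : ∀ i, ediam (t i) ≠ ∞ := fun i hi => by
    apply hfin i
    rw [hi, ENNReal.top_rpow_of_pos hs]
  obtain ⟨η, hη, hηs⟩ := ENNReal.exists_pos_sum_of_countable' (tsub_pos_of_lt h).ne' ℕ
  have key : ∀ i, ∃ r : ℝ≥0, 0 < r ∧ ediam (thickening r (t i)) ^ s ≤
      ediam (t i) ^ s + η i := fun i => by
    have hc : Tendsto (fun r : ℝ≥0 => (ediam (t i) + 2 * (r : ℝ≥0∞)) ^ s) (𝓝[>] 0)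
        (𝓝 (ediam (t i) ^ s)) := by
      have h4 : Tendsto (fun r : ℝ≥0 => ediam (t i) + 2 * (r : ℝ≥0∞)) (𝓝[>] 0)
          (𝓝 (ediam (t i))) := by
        have h5 : Tendsto (fun r : ℝ≥0 => ediam (t i) + 2 * (r : ℝ≥0∞)) (𝓝 0)
            (𝓝 (ediam (t i) + 2 * ((0 : ℝ≥0) : ℝ≥0∞))) := by
          refine Tendsto.const_add _ (ENNReal.Tendsto.const_mul ?_ (Or.inr (by simp)))
          exact (ENNReal.continuous_coe.tendsto 0)
        rw [ENNReal.coe_zero, mul_zero, add_zero] at h5
        exact h5.mono_left nhdsWithin_le_nhds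
      exact (ENNReal.continuous_rpow_const.tendsto _).comp h4
    have hlt : ediam (t i) ^ s < ediam (t i) ^ s + η i :=
      ENNReal.lt_add_right (hfin i) (hη i).ne'
    obtain ⟨r, hr1, hr2⟩ := ((hc.eventually_lt_const hlt).and self_mem_nhdsWithin).exists
    refine ⟨r, hr2, le_trans ?_ hr1.le⟩
    exact ENNReal.rpow_le_rpow (ediam_thickening_le r) hs.le
  choose r hr hr2 using key
  refine ⟨fun i => thickening (r i) (t i), fun i => isOpen_thickening, ?_, ?_⟩
  · exact hA.trans (iUnion_mono fun i => self_subset_thickening (hr i) _)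
  · calc ∑' i, ediam (thickening (r i) (t i)) ^ s
        ≤ ∑' i, (ediam (t i) ^ s + η i) := ENNReal.tsum_le_tsum hr2
      _ = (∑' i, ediam (t i) ^ s) + ∑' i, η i := ENNReal.tsum_add
      _ < (∑' i, ediam (t i) ^ s) + (ε - ∑' i, ediam (t i) ^ s) :=
          ENNReal.add_lt_add_left (h.trans_le le_top).ne hηs
      _ = ε := add_tsub_cancel_of_le h.le

theorem small_of_small {s : ℝ} {A : Set (EuclideanSpace ℝ (Fin n))} {ε : ℝ≥0∞}
    (h : Small s ε A) : ∃ t : ℕ → Set (EuclideanSpace ℝ (Fin n)), A ⊆ ⋃ i, t i ∧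
      ∑' i, ediam (t i) ^ s < ε := by
  obtain ⟨t, -, h2, h3⟩ := h
  exact ⟨t, h2, h3⟩

/-! ### Contents -/

theorem dense_small {s : ℝ} (hs : 0 < s)
    (h : ∀ c : ℝ≥0∞, 0 < c → ∃ K : Set (EuclideanSpace ℝ (Fin n)), IsKakeya K ∧ Small s c K)
    {η : ℝ≥0∞} (hη : 0 < η) :
    Dense {K : KSpace n | Small s η (K : Set (EuclideanSpace ℝ (Fin n)))} := by
  rw [Metric.dense_iff]
  intro K r hr
  have hR1 : (1 : ℝ) ≤ 2 * (n : ℝ) + 1 := by
    have : (0 : ℝ) ≤ n := Nat.cast_nonneg n
    linarith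
  obtain ⟨ι, hι, c, T, P, hP, hnear⟩ := near_space K hr hR1
  obtain ⟨ε, hε, hcop⟩ := small_copies hs c T hP hη
  have h60 : (6 : ℝ≥0∞) ^ n ≠ 0 := pow_ne_zero _ (by norm_num)
  have h6t : (6 : ℝ≥0∞) ^ n ≠ ∞ := ENNReal.pow_ne_top (by norm_num)
  obtain ⟨K0, hK0, hsm⟩ := h (min (ε / (6 : ℝ≥0∞) ^ n) 1)
    (lt_min (ENNReal.div_pos hε.ne' h6t) one_pos)
  obtain ⟨K1, hK1, hb, hsm1, -⟩ := exists_nrm hK0
  have h1 := hsm1 s _ hs (min_le_right _ _) hsm
  have h2 : (6 : ℝ≥0∞) ^ n * min (ε / (6 : ℝ≥0∞) ^ n) 1 ≤ ε := by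
    calc (6 : ℝ≥0∞) ^ n * min (ε / (6 : ℝ≥0∞) ^ n) 1 ≤ (6 : ℝ≥0∞) ^ n * (ε / (6 : ℝ≥0∞) ^ n) := by
          gcongr
          exact min_le_left _ _
      _ = ε := ENNReal.mul_div_cancel h60 h6t
  obtain ⟨K', hK', hsub⟩ := hnear K1 hK1 hb
  exact ⟨K', hK', small_mono le_rfl hsub (hcop K1 (small_mono h2 subset_rfl h1))⟩

/-- Either the contents of all Kakeya sets are bounded below by one positive number, or typical
Kakeya sets have measure zero. -/
theorem content_alternative {s : ℝ} (hs : 0 < s) :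
    (∃ c : ℝ≥0∞, 0 < c ∧ ∀ K : Set (EuclideanSpace ℝ (Fin n)), IsKakeya K →
      ∀ t : ℕ → Set (EuclideanSpace ℝ (Fin n)), K ⊆ ⋃ i, t i → c ≤ ∑' i, ediam (t i) ^ s) ∨
    ∀ᶠ K : KSpace n in residual (KSpace n), μH[s] (K : Set (EuclideanSpace ℝ (Fin n))) = 0 := by
  by_cases h : ∀ c : ℝ≥0∞, 0 < c → ∃ K : Set (EuclideanSpace ℝ (Fin n)), IsKakeya K ∧ Small s c K
  · right
    have h1 : ∀ᶠ K : KSpace n in residual (KSpace n), ∀ k : ℕ,
        Small s (1 / ((k : ℝ≥0∞) + 1)) (K : Set (EuclideanSpace ℝ (Fin n))) := by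
      rw [eventually_countable_forall]
      intro k
      refine residual_of_dense_open (isOpen_small s _) (dense_small hs h ?_)
      exact ENNReal.div_pos one_ne_zero (by finiteness)
    filter_upwards [h1] with K hK
    refine zero_of_small hs fun ε hε => ?_
    obtain ⟨k, hk⟩ := ENNReal.exists_inv_nat_lt hε.ne'
    obtain ⟨t, h1, h2, h3⟩ := hK k
    refine ⟨t, h1, h2, h3.trans (lt_of_le_of_lt ?_ hk)⟩
    rw [one_div]
    exact ENNReal.inv_le_inv.2 le_self_add
  · left
    push Not at h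
    obtain ⟨c, hc, h⟩ := h
    refine ⟨c, hc, fun K hK t ht => ?_⟩
    by_contra hcon
    rw [not_le] at hcon
    exact h K hK (small_of_cover hs t ht hcon)

/-! ### Volumes of neighbourhoods -/

theorem isOpen_vol (c a r : ℝ) : IsOpen {K : KSpace n | ∃ δ : ℝ, 0 < δ ∧ δ < r ∧
    volume (thickening δ (K : Set (EuclideanSpace ℝ (Fin n)))) < ENNReal.ofReal (c * δ ^ a)} := by
  rw [Metric.isOpen_iff]
  rintro K ⟨δ, hδ, hδr, h⟩
  have hcont : Tendsto (fun x : ℝ => ENNReal.ofReal (c * x ^ a)) (𝓝[<] δ)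
      (𝓝 (ENNReal.ofReal (c * δ ^ a))) :=
    (ENNReal.continuous_ofReal.tendsto _).comp
      ((((Real.continuousAt_rpow_const δ a (Or.inl hδ.ne')).tendsto).mono_left
        nhdsWithin_le_nhds).const_mul c)
  have h1 : ∀ᶠ x in 𝓝[<] δ, volume (thickening δ (K : Set (EuclideanSpace ℝ (Fin n)))) <
      ENNReal.ofReal (c * x ^ a) := hcont.eventually_const_lt h
  have h2 : ∀ᶠ x in 𝓝[<] δ, 0 < x := (eventually_gt_nhds hδ).filter_mono nhdsWithin_le_nhds
  obtain ⟨x, hx1, hx2, hx3⟩ := (h1.and (h2.and self_mem_nhdsWithin)).exists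
  have hx3' : x < δ := hx3
  refine ⟨δ - x, sub_pos.2 hx3', fun L hL => ⟨x, hx2, hx3'.trans hδr, lt_of_le_of_lt ?_ hx1⟩⟩
  rw [mem_ball, Subtype.dist_eq] at hL
  refine measure_mono ?_
  have h5 : thickening x (thickening (δ - x) (K : Set (EuclideanSpace ℝ (Fin n)))) ⊆
      thickening (x + (δ - x)) (K : Set (EuclideanSpace ℝ (Fin n))) :=
    thickening_thickening_subset _ _ _
  rw [add_sub_cancel] at h5
  exact (thickening_subset_of_subset _ (subset_thickening hL)).trans h5

/-- the volume of the unit ball -/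
def vb (n : ℕ) : ℝ := (volume (ball (0 : EuclideanSpace ℝ (Fin n)) 1)).toReal

theorem vb_pos (n : ℕ) : 0 < vb n :=
  ENNReal.toReal_pos (measure_ball_pos volume _ one_pos).ne' measure_ball_lt_top.ne

theorem vol_ge {K : Set (EuclideanSpace ℝ (Fin n))} (hK : K.Nonempty) {δ : ℝ} (hδ : 0 < δ) :
    ENNReal.ofReal (vb n * δ ^ (n : ℝ)) ≤ volume (thickening δ K) := by
  obtain ⟨x, hx⟩ := hK
  have h1 : volume (ball x δ) ≤ volume (thickening δ K) :=
    measure_mono fun y hy => mem_thickening_iff.2 ⟨x, hx, hy⟩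
  refine le_trans (le_of_eq ?_) h1
  rw [Measure.addHaar_ball_of_pos volume x hδ, finrank_euclideanSpace_fin, Real.rpow_natCast, vb,
    mul_comm, ENNReal.ofReal_mul (by positivity), ENNReal.ofReal_toReal measure_ball_lt_top.ne]

/-- Either the volumes of the neighbourhoods of all Kakeya sets are bounded below by
`c δ ^ (n - s)`, or typical Kakeya sets have arbitrarily small neighbourhoods which violate this
for every `c > 0`. -/
theorem volume_alternative (hn : 1 ≤ n) (s : ℝ) :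
    (∃ c : ℝ, 0 < c ∧ ∀ K : Set (EuclideanSpace ℝ (Fin n)), IsKakeya K → ∀ δ : ℝ, 0 < δ → δ < 1 →
      ENNReal.ofReal (c * δ ^ ((n : ℝ) - s)) ≤ volume (thickening δ K)) ∨
    ∀ᶠ K : KSpace n in residual (KSpace n), ∀ c r : ℝ, 0 < c → 0 < r → ∃ δ : ℝ, 0 < δ ∧ δ < r ∧
      volume (thickening δ (K : Set (EuclideanSpace ℝ (Fin n)))) <
        ENNReal.ofReal (c * δ ^ ((n : ℝ) - s)) := by
  have hne : ∀ K : Set (EuclideanSpace ℝ (Fin n)), IsKakeya K → K.Nonempty := fun K hK => by
    have : Nonempty (Fin n) := ⟨⟨0, hn⟩⟩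
    obtain ⟨w, hw⟩ := exists_norm_eq (EuclideanSpace ℝ (Fin n)) (zero_le_one (α := ℝ))
    obtain ⟨a, ha⟩ := hK.2 w hw
    exact ⟨_, ha 0 le_rfl zero_le_one⟩
  have hvb := vb_pos n
  rcases le_or_gt s 0 with hs | hs
  · left
    refine ⟨vb n, hvb, fun K hK δ hδ hδ1 => ?_⟩
    refine (ENNReal.ofReal_le_ofReal ?_).trans (vol_ge (hne K hK) hδ)
    gcongr ?_ * ?_
    exact Real.rpow_le_rpow_of_exponent_ge hδ hδ1.le (by linarith)
  by_cases h : ∃ c : ℝ, 0 < c ∧ ∀ K : Set (EuclideanSpace ℝ (Fin n)), IsKakeya K →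
      ∀ δ : ℝ, 0 < δ → δ < 1 → ENNReal.ofReal (c * δ ^ ((n : ℝ) - s)) ≤ volume (thickening δ K)
  · exact Or.inl h
  right
  push Not at h
  have hR1 : (1 : ℝ) ≤ 2 * (n : ℝ) + 1 := by
    have : (0 : ℝ) ≤ n := Nat.cast_nonneg n
    linarith
  have hdense : ∀ c r : ℝ, 0 < c → 0 < r → Dense {K : KSpace n | ∃ δ : ℝ, 0 < δ ∧ δ < r ∧
      volume (thickening δ (K : Set (EuclideanSpace ℝ (Fin n)))) <
        ENNReal.ofReal (c * δ ^ ((n : ℝ) - s))} := by
    intro c r hc hr
    rw [Metric.dense_iff]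
    intro K ρ hρ
    obtain ⟨ι, hι, b, T, P, hP, hnear⟩ := near_space K hρ hR1
    -- a constant for the copies, uniform in the set which is copied
    obtain ⟨κ, C, hκ, hκ1, hC, hvol⟩ : ∃ (κ : ℝ) (C : ℝ≥0∞), 0 < κ ∧ κ ≤ 1 ∧ C ≠ ∞ ∧
        ∀ A : Set (EuclideanSpace ℝ (Fin n)), A.Nonempty → ∀ δ : ℝ, 0 < δ →
          volume (thickening (κ * δ) ((⋃ i, (fun x => b i + T i x) '' A) ∪ P)) ≤
            C * volume (thickening δ A) := by
      obtain ⟨D, hD⟩ : ∃ D, D = ∑ i,
        ‖((T i).symm : EuclideanSpace ℝ (Fin n) →L[ℝ] EuclideanSpace ℝ (Fin n))‖ := ⟨_, rfl⟩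
      have hD0 : 0 ≤ D := hD ▸ Finset.sum_nonneg fun i _ => norm_nonneg _
      have hDi : ∀ i,
          ‖((T i).symm : EuclideanSpace ℝ (Fin n) →L[ℝ] EuclideanSpace ℝ (Fin n))‖ ≤ D :=
        fun i => by
          rw [hD]
          exact Finset.single_le_sum (f := fun i =>
            ‖((T i).symm : EuclideanSpace ℝ (Fin n) →L[ℝ] EuclideanSpace ℝ (Fin n))‖)
            (fun i _ => norm_nonneg _) (Finset.mem_univ i)
      refine ⟨1 / (1 + D), (∑ i, ENNReal.ofReal |LinearMap.det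
        ((T i : EuclideanSpace ℝ (Fin n) →L[ℝ] EuclideanSpace ℝ (Fin n)) :
          EuclideanSpace ℝ (Fin n) →ₗ[ℝ] EuclideanSpace ℝ (Fin n))|) + hP.toFinset.card,
        by positivity, ?_, ?_, fun A hA δ hδ => ?_⟩
      · rw [div_le_one (by positivity)]; linarith
      · exact ENNReal.add_ne_top.2 ⟨ENNReal.sum_ne_top.2 fun i _ => ENNReal.ofReal_ne_top,
          ENNReal.natCast_ne_top _⟩
      obtain ⟨x0, hx0⟩ := hA
      have hκ0 : 0 < 1 / (1 + D) * δ := by positivity
      have hκδ : 1 / (1 + D) * δ ≤ δ := by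
        have : 1 / (1 + D) ≤ 1 := by rw [div_le_one (by positivity)]; linarith
        nlinarith
      have h1 : thickening (1 / (1 + D) * δ) ((⋃ i, (fun x => b i + T i x) '' A) ∪ P) ⊆
          (⋃ i, (fun x => b i + T i x) '' thickening δ A) ∪
            ⋃ p ∈ hP.toFinset, ball p (1 / (1 + D) * δ) := by
        intro y hy
        obtain ⟨z, hz, hyz⟩ := mem_thickening_iff.1 hy
        rcases hz with hz | hz
        · obtain ⟨i, x, hx, rfl⟩ := mem_iUnion.1 hz
          refine Or.inl (mem_iUnion.2 ⟨i, (T i).symm (y - b i), ?_, by simp⟩)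
          refine mem_thickening_iff.2 ⟨x, hx, ?_⟩
          have e1 : (T i).symm (y - b i) - x = (T i).symm (y - (b i + T i x)) := by
            rw [← sub_sub, map_sub (T i).symm (y - b i), ContinuousLinearEquiv.symm_apply_apply]
          rw [dist_eq_norm, e1]
          calc ‖(T i).symm (y - (b i + T i x))‖
              ≤ ‖((T i).symm : EuclideanSpace ℝ (Fin n) →L[ℝ] EuclideanSpace ℝ (Fin n))‖ *
                ‖y - (b i + T i x)‖ :=
                ((T i).symm : EuclideanSpace ℝ (Fin n) →L[ℝ] EuclideanSpace ℝ (Fin n)).le_opNorm _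
            _ ≤ D * ‖y - (b i + T i x)‖ := mul_le_mul_of_nonneg_right (hDi i) (norm_nonneg _)
            _ ≤ D * (1 / (1 + D) * δ) := by
                rw [← dist_eq_norm]
                exact mul_le_mul_of_nonneg_left hyz.le hD0
            _ < δ := by
                rw [show D * (1 / (1 + D) * δ) = D / (1 + D) * δ by ring]
                have : D / (1 + D) < 1 := by rw [div_lt_one (by positivity)]; linarith
                nlinarith
        · exact Or.inr (mem_iUnion₂.2 ⟨z, hP.mem_toFinset.2 hz, hyz⟩)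
      have h2 : ∀ i, volume ((fun x => b i + T i x) '' thickening δ A) =
          ENNReal.ofReal |LinearMap.det
            ((T i : EuclideanSpace ℝ (Fin n) →L[ℝ] EuclideanSpace ℝ (Fin n)) :
              EuclideanSpace ℝ (Fin n) →ₗ[ℝ] EuclideanSpace ℝ (Fin n))| *
            volume (thickening δ A) := fun i => by
        rw [show (fun x => b i + T i x) = (fun x => b i + x) ∘ (T i) from rfl, image_comp,
          image_add_left, measure_preimage_add, Measure.addHaar_image_continuousLinearEquiv]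
        rfl
      have h3 : ∀ p : EuclideanSpace ℝ (Fin n),
          volume (ball p (1 / (1 + D) * δ)) ≤ volume (thickening δ A) := fun p => by
        rw [Measure.addHaar_ball_center, ← Measure.addHaar_ball_center volume x0]
        refine measure_mono fun y hy => mem_thickening_iff.2 ⟨x0, hx0, ?_⟩
        exact (mem_ball.1 hy).trans_le hκδ
      calc volume (thickening (1 / (1 + D) * δ) ((⋃ i, (fun x => b i + T i x) '' A) ∪ P))
          ≤ volume (⋃ i, (fun x => b i + T i x) '' thickening δ A) +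
            volume (⋃ p ∈ hP.toFinset, ball p (1 / (1 + D) * δ)) :=
            (measure_mono h1).trans (measure_union_le _ _)
        _ ≤ (∑ i, volume ((fun x => b i + T i x) '' thickening δ A)) +
            ∑ p ∈ hP.toFinset, volume (ball p (1 / (1 + D) * δ)) := by
            refine add_le_add ?_ (measure_biUnion_finset_le _ _)
            exact measure_iUnion_fintype_le _ _
        _ ≤ (∑ i, ENNReal.ofReal |LinearMap.det
              ((T i : EuclideanSpace ℝ (Fin n) →L[ℝ] EuclideanSpace ℝ (Fin n)) :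
                EuclideanSpace ℝ (Fin n) →ₗ[ℝ] EuclideanSpace ℝ (Fin n))| *
              volume (thickening δ A)) + ∑ p ∈ hP.toFinset, volume (thickening δ A) := by
            refine add_le_add (Finset.sum_le_sum fun i _ => (h2 i).le)
              (Finset.sum_le_sum fun p _ => h3 p)
        _ = _ := by
            rw [Finset.sum_const, nsmul_eq_mul, add_mul, Finset.sum_mul]
    -- the choice of the constant
    set C' : ℝ := C.toReal * 6 ^ n + 1 with hC'
    have hC'0 : 0 < C' := by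
      have : 0 ≤ C.toReal := ENNReal.toReal_nonneg
      positivity
    set c1 : ℝ := c * κ ^ ((n : ℝ) - s) / C' with hc1
    have hc10 : 0 < c1 := by positivity
    set c2 : ℝ := vb n * (r / 2) ^ s with hc2
    have hc20 : 0 < c2 := by positivity
    obtain ⟨K0, hK0, δ, hδ, hδ1, hlt⟩ := h (min c1 c2) (lt_min hc10 hc20)
    have hδr : δ < r / 2 := by
      by_contra hcon
      rw [not_lt] at hcon
      have h1 := vol_ge (hne K0 hK0) hδ
      have h2 := h1.trans_lt hlt
      rw [ENNReal.ofReal_lt_ofReal_iff (by positivity), Real.rpow_sub hδ] at h2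
      have h3 : min c1 c2 * (δ ^ (n : ℝ) / δ ^ s) ≤ vb n * (r / 2) ^ s * (δ ^ (n : ℝ) / δ ^ s) := by
        gcongr
        exact min_le_right _ _
      have h4 : (r / 2) ^ s ≤ δ ^ s := Real.rpow_le_rpow (by positivity) hcon hs.le
      have h5 : vb n * (r / 2) ^ s * (δ ^ (n : ℝ) / δ ^ s) ≤ vb n * δ ^ (n : ℝ) := by
        have h6 : vb n * (r / 2) ^ s * (δ ^ (n : ℝ) / δ ^ s) ≤
            vb n * δ ^ s * (δ ^ (n : ℝ) / δ ^ s) := by gcongr
        refine h6.trans (le_of_eq ?_)
        have : δ ^ s ≠ 0 := by positivity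
        field_simp
      linarith
    obtain ⟨K1, hK1, hb, -, hv1⟩ := exists_nrm hK0
    obtain ⟨K', hK', hsub⟩ := hnear K1 hK1 hb
    refine ⟨K', hK', κ * δ, by positivity, by nlinarith, ?_⟩
    have hvfin : volume (thickening δ K0) ≠ ∞ := vol_fin hK0.1 δ
    calc volume (thickening (κ * δ) (K' : Set (EuclideanSpace ℝ (Fin n))))
        ≤ volume (thickening (κ * δ) ((⋃ i, (fun x => b i + T i x) '' K1) ∪ P)) :=
          measure_mono (thickening_subset_of_subset _ hsub)
      _ ≤ C * volume (thickening δ K1) := hvol K1 (hne K1 hK1) δ hδ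
      _ ≤ C * ((6 : ℝ≥0∞) ^ n * volume (thickening δ K0)) := by
          gcongr
          exact hv1 δ hδ hδ1.le
      _ ≤ C * ((6 : ℝ≥0∞) ^ n * ENNReal.ofReal (min c1 c2 * δ ^ ((n : ℝ) - s))) := by
          gcongr
      _ = ENNReal.ofReal (C.toReal * (6 ^ n * (min c1 c2 * δ ^ ((n : ℝ) - s)))) := by
          rw [ENNReal.ofReal_mul ENNReal.toReal_nonneg, ENNReal.ofReal_toReal hC,
            ENNReal.ofReal_mul (p := (6 : ℝ) ^ n) (by positivity),
            ENNReal.ofReal_pow (by norm_num)]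
          norm_num
      _ < ENNReal.ofReal (c * (κ * δ) ^ ((n : ℝ) - s)) := by
          rw [ENNReal.ofReal_lt_ofReal_iff (by positivity), Real.mul_rpow hκ.le hδ.le]
          have h7 : 0 < δ ^ ((n : ℝ) - s) := by positivity
          have h8 : C.toReal * 6 ^ n * min c1 c2 < c * κ ^ ((n : ℝ) - s) := by
            have h9 : C.toReal * 6 ^ n * min c1 c2 ≤ C.toReal * 6 ^ n * c1 := by
              have : 0 ≤ C.toReal := ENNReal.toReal_nonneg
              gcongr
              exact min_le_left _ _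
            have h10 : C.toReal * 6 ^ n * c1 < C' * c1 := by
              apply mul_lt_mul_of_pos_right _ hc10
              rw [hC']
              linarith
            have h11 : C' * c1 = c * κ ^ ((n : ℝ) - s) := by
              rw [hc1]
              field_simp
            linarith
          nlinarith
  have h1 : ∀ᶠ K : KSpace n in residual (KSpace n), ∀ k : ℕ, ∃ δ : ℝ, 0 < δ ∧
      δ < 1 / ((k : ℝ) + 1) ∧ volume (thickening δ (K : Set (EuclideanSpace ℝ (Fin n)))) <
        ENNReal.ofReal (1 / ((k : ℝ) + 1) * δ ^ ((n : ℝ) - s)) := by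
    rw [eventually_countable_forall]
    intro k
    exact residual_of_dense_open (isOpen_vol _ _ _) (hdense _ _ (by positivity) (by positivity))
  filter_upwards [h1] with K hK
  intro c r hc hr
  obtain ⟨k, hk⟩ := exists_nat_one_div_lt (lt_min hc hr)
  obtain ⟨δ, ha, hb, hd⟩ := hK k
  refine ⟨δ, ha, hb.trans (hk.trans_le (min_le_right _ _)), hd.trans_le ?_⟩
  apply ENNReal.ofReal_le_ofReal
  gcongr
  exact (hk.trans_le (min_le_left _ _)).le

end

end Pool.Agent.U530.TK
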