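import Pool.Agent.U26.TK.Typical

/-!
# Kakeya sets near a given one, made of squeezed copies of an arbitrary bounded Kakeya set

The maps do not depend on the set which is copied (compare `Pool.Agent.U26.TK.exists_near`).
-/

set_option autoImplicit false

open Set Metric Filter Topology MeasureTheory TopologicalSpace
open scoped RealInnerProductSpace

namespace Pool.Agent.U530.TK

open Pool.Agent.U26.TK

variable {n : ℕ}

theorem exists_near_unif {K : Set (EuclideanSpace ℝ (Fin n))} (h : IsKakeya K) (hne : K.Nonempty)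
    {ε R : ℝ} (hε : 0 < ε) (hR1 : 1 ≤ R) :
    ∃ (ι : Type) (_ : Fintype ι) (c : ι → EuclideanSpace ℝ (Fin n))
      (T : ι → (EuclideanSpace ℝ (Fin n) ≃L[ℝ] EuclideanSpace ℝ (Fin n)))
      (P : Set (EuclideanSpace ℝ (Fin n))), P.Finite ∧
      ∀ K0 : Set (EuclideanSpace ℝ (Fin n)), IsKakeya K0 → (∀ y ∈ K0, ‖y‖ ≤ R) →
      ∃ K' : Set (EuclideanSpace ℝ (Fin n)), IsKakeya K' ∧ K'.Nonempty ∧
        (∀ x ∈ K', ∃ y ∈ K, dist x y ≤ ε) ∧ (∀ y ∈ K, ∃ x ∈ K', dist y x ≤ ε) ∧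
        K' ⊆ (⋃ i, (fun x => c i + T i x) '' K0) ∪ P := by
  obtain ⟨τ, hτdef⟩ : ∃ τ, τ = ε / 2 := ⟨_, rfl⟩
  have hτ : 0 < τ := by rw [hτdef]; positivity
  obtain ⟨l, hldef⟩ : ∃ l, l = min 1 (ε / (4 * R)) := ⟨_, rfl⟩
  have hl : 0 < l := by rw [hldef]; positivity
  have hl1 : l ≤ 1 := by rw [hldef]; exact min_le_left _ _
  have hlR : 2 * l * R ≤ ε / 2 := by
    have h1 : l ≤ ε / (4 * R) := by rw [hldef]; exact min_le_right _ _
    rw [le_div_iff₀ (by positivity)] at h1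
    linarith
  obtain ⟨M, hM⟩ := exists_nat_ge (2 * R / τ + 1)
  obtain ⟨S, hS1, hSf, hS2⟩ :=
    (isCompact_sphere (0 : (EuclideanSpace ℝ (Fin n))) 1).finite_cover_balls hl
  obtain ⟨P, hP1, hPf, hP2⟩ := h.1.finite_cover_balls hε
  have ha : ∀ e : (EuclideanSpace ℝ (Fin n)), ∃ a : (EuclideanSpace ℝ (Fin n)),
      ‖e‖ = 1 → ∀ t : ℝ, 0 ≤ t → t ≤ 1 → a + t • e ∈ K := fun e => by
    by_cases he : ‖e‖ = 1
    · obtain ⟨a, ha⟩ := h.2 e he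
      exact ⟨a, fun _ => ha⟩
    · exact ⟨0, fun h' => absurd h' he⟩
  choose a ha using ha
  have hS3 : ∀ e ∈ S, ‖e‖ = 1 := fun e he => by simpa using hS1 he
  have : Fintype S := hSf.fintype
  refine ⟨S × (Finset.Icc (-(M : ℤ)) M), inferInstance,
      fun i => a i.1 + ((((i.2 : ℤ)) : ℝ) * τ) • (i.1 : (EuclideanSpace ℝ (Fin n))),
      fun i => sqe (i.1 : (EuclideanSpace ℝ (Fin n))) (hS3 _ i.1.2) l 2 hl.ne' two_ne_zero, P, hPf,
      ?_⟩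
  intro K0 h0 hR
  refine ⟨(⋃ e ∈ S, piece K0 e (a e) l τ M) ∪ P, ⟨?_, ?_⟩, ?_, ?_, ?_, ?_⟩
  · exact (hSf.isCompact_biUnion fun e _ => piece_compact h0.1 e (a e) l τ M).union hPf.isCompact
  · intro w hw
    have : w ∈ sphere (0 : (EuclideanSpace ℝ (Fin n))) 1 := by simpa using hw
    obtain ⟨e, he, hwe⟩ := mem_iUnion₂.1 (hS2 this)
    rw [mem_ball, dist_eq_norm] at hwe
    obtain ⟨p, hp⟩ := piece_dir h0 (a e) (hS3 e he) hl hl1 hτ hR hM hw hwe.le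
    exact ⟨p, fun t h1 h2 => Or.inl (mem_iUnion₂.2 ⟨e, he, hp t h1 h2⟩)⟩
  · obtain ⟨x, hx⟩ := hne
    obtain ⟨y, hy, -⟩ := mem_iUnion₂.1 (hP2 hx)
    exact ⟨y, Or.inr hy⟩
  · rintro x (hx | hx)
    · obtain ⟨e, he, hxe⟩ := mem_iUnion₂.1 hx
      obtain ⟨t, ht0, ht1, hd⟩ := piece_close (hS3 e he) hl.le hτ.le hR hxe
      exact ⟨_, ha e (hS3 e he) t ht0 ht1, by linarith⟩
    · exact ⟨x, hP1 hx, by simpa using hε.le⟩
  · intro y hy
    obtain ⟨x, hx, hyx⟩ := mem_iUnion₂.1 (hP2 hy)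
    exact ⟨x, Or.inr hx, (mem_ball.1 hyx).le⟩
  · refine union_subset_union_left _ ?_
    intro x hx
    obtain ⟨e, he, hxe⟩ := mem_iUnion₂.1 hx
    simp only [piece, mem_iUnion] at hxe
    obtain ⟨j, hj, ⟨y, hy, rfl⟩, -⟩ := hxe
    exact mem_iUnion.2 ⟨(⟨e, he⟩, ⟨j, hj⟩), y, hy, rfl⟩

/-- In the space of Kakeya sets: near `K` there are Kakeya sets covered by copies of any Kakeya set
in the ball of radius `R`, by maps which do not depend on the latter. -/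
theorem near_space (K : KSpace n) {r R : ℝ} (hr : 0 < r) (hR1 : 1 ≤ R) :
    ∃ (ι : Type) (_ : Fintype ι) (c : ι → EuclideanSpace ℝ (Fin n))
      (T : ι → (EuclideanSpace ℝ (Fin n) ≃L[ℝ] EuclideanSpace ℝ (Fin n)))
      (P : Set (EuclideanSpace ℝ (Fin n))), P.Finite ∧
      ∀ K0 : Set (EuclideanSpace ℝ (Fin n)), IsKakeya K0 → (∀ y ∈ K0, ‖y‖ ≤ R) →
      ∃ K' : KSpace n, K' ∈ ball K r ∧
        (K' : Set (EuclideanSpace ℝ (Fin n))) ⊆ (⋃ i, (fun x => c i + T i x) '' K0) ∪ P := by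
  obtain ⟨ι, hι, c, T, P, hP, h⟩ := exists_near_unif K.2 K.1.nonempty (half_pos hr) hR1
  refine ⟨ι, hι, c, T, P, hP, fun K0 h0 hR => ?_⟩
  obtain ⟨K', h1, h2, h3, h4, h5⟩ := h K0 h0 hR
  refine ⟨⟨⟨⟨K', h1.1⟩, h2⟩, h1⟩, ?_, h5⟩
  rw [mem_ball, Subtype.dist_eq, NonemptyCompacts.dist_eq]
  exact (hausdorffDist_le_of_mem_dist (half_pos hr).le h3 h4).trans_lt (half_lt_self hr)

end Pool.Agent.U530.TK
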