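import Pool.Agent.U530.TK.Cont

/-!
# Moving a Kakeya set into a fixed ball

Every Kakeya set is cut into boxes, and the boxes are translated to one place. The result is a
Kakeya set in the ball of radius `2 n + 1`; contents and volumes of neighbourhoods grow at most by
the factor `6 ^ n`.
-/

set_option autoImplicit false

open Set Metric Filter Topology MeasureTheory TopologicalSpace
open scoped ENNReal NNReal

namespace Pool.Agent.U530.TK

open Pool.Agent.U26.TK

noncomputable section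

variable {n : ℕ}

/-- the box of side three around the unit cube with lower corner `z` -/
def bx (z : Fin n → ℤ) : Set (EuclideanSpace ℝ (Fin n)) :=
  {x | ∀ i, (z i : ℝ) - 1 ≤ x i ∧ x i ≤ z i + 2}

/-- an integer point as a vector -/
def vz (z : Fin n → ℤ) : EuclideanSpace ℝ (Fin n) := WithLp.toLp 2 (fun i => (z i : ℝ))

@[simp] theorem vz_apply (z : Fin n → ℤ) (i : Fin n) : vz z i = z i := rfl

/-- the integer points with coordinates between `-M` and `M` -/
def pts (n M : ℕ) : Finset (Fin n → ℤ) := Fintype.piFinset (fun _ : Fin n => Finset.Icc (-(M : ℤ)) M)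

/-- all boxes are moved to one place -/
def nrm (K : Set (EuclideanSpace ℝ (Fin n))) (M : ℕ) : Set (EuclideanSpace ℝ (Fin n)) :=
  ⋃ z ∈ pts n M, (fun x => x - vz z) '' (K ∩ bx z)

theorem isClosed_bx (z : Fin n → ℤ) : IsClosed (bx z) := by
  have e : bx z = ⋂ i, ({x : EuclideanSpace ℝ (Fin n) | (z i : ℝ) - 1 ≤ x i} ∩
      {x | x i ≤ z i + 2}) := by
    ext x
    simp [bx]
  rw [e]
  refine isClosed_iInter fun i => ?_
  have hc : Continuous fun x : EuclideanSpace ℝ (Fin n) => x i := by fun_prop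
  exact (isClosed_le continuous_const hc).inter (isClosed_le hc continuous_const)

theorem coord_le (x : EuclideanSpace ℝ (Fin n)) (i : Fin n) : |x i| ≤ ‖x‖ := by
  have := PiLp.norm_apply_le x i
  simpa using this

theorem nrm_kakeya {K : Set (EuclideanSpace ℝ (Fin n))} (h : IsKakeya K) {M : ℕ}
    (hM : ∀ y ∈ K, ‖y‖ + 1 ≤ M) : IsKakeya (nrm K M) := by
  refine ⟨?_, fun w hw => ?_⟩
  · refine Finset.isCompact_biUnion _ fun z _ => ?_
    exact (h.1.inter_right (isClosed_bx z)).image (by fun_prop)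
  · obtain ⟨a, ha⟩ := h.2 w hw
    have ha0 : a ∈ K := by simpa using ha 0 le_rfl zero_le_one
    refine ⟨a - vz (fun i => ⌊a i⌋), fun t h0 h1 => ?_⟩
    refine mem_iUnion₂.2 ⟨fun i => ⌊a i⌋, ?_, a + t • w, ⟨ha t h0 h1, fun i => ?_⟩, by
      dsimp only; abel⟩
    · unfold pts
      rw [Fintype.mem_piFinset]
      intro i
      rw [Finset.mem_Icc]
      have h2 := abs_le.1 ((coord_le a i).trans (by linarith [hM a ha0] : ‖a‖ ≤ (M : ℝ) - 1))
      have h3 := Int.floor_le (a i)
      have h4 := Int.lt_floor_add_one (a i)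
      constructor
      · have : (-(M : ℝ)) < ⌊a i⌋ + 1 := by linarith
        have : (-(M : ℤ)) < ⌊a i⌋ + 1 := by exact_mod_cast this
        omega
      · have : (⌊a i⌋ : ℝ) ≤ M := by linarith
        exact_mod_cast this
    · have h2 := abs_le.1 ((coord_le w i).trans hw.le)
      have h3 := Int.floor_le (a i)
      have h4 := Int.lt_floor_add_one (a i)
      have e1 : (a + t • w) i = a i + t * w i := by simp
      rw [e1]
      constructor
      · nlinarith
      · nlinarith

theorem nrm_bound {K : Set (EuclideanSpace ℝ (Fin n))} {M : ℕ} {y : EuclideanSpace ℝ (Fin n)}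
    (hy : y ∈ nrm K M) : ‖y‖ ≤ 2 * (n : ℝ) + 1 := by
  obtain ⟨z, -, x, ⟨-, hx⟩, rfl⟩ := mem_iUnion₂.1 hy
  have h1 : ‖x - vz z‖ ^ 2 ≤ (2 * (n : ℝ) + 1) ^ 2 := by
    rw [EuclideanSpace.norm_sq_eq]
    have h2 : ∀ i ∈ (Finset.univ : Finset (Fin n)), ‖(x - vz z) i‖ ^ 2 ≤ 4 := by
      intro i _
      have h3 := hx i
      have e1 : (x - vz z) i = x i - z i := by simp
      rw [e1, Real.norm_eq_abs, sq_abs]
      nlinarith
    refine (Finset.sum_le_sum h2).trans ?_
    rw [Finset.sum_const, Finset.card_univ, Fintype.card_fin, nsmul_eq_mul]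
    have : (0 : ℝ) ≤ n := Nat.cast_nonneg n
    nlinarith
  exact abs_le_of_sq_le_sq' h1 (by positivity) |>.2

/-- The integer points near `p`. -/
def near (p : EuclideanSpace ℝ (Fin n)) : Finset (Fin n → ℤ) :=
  Fintype.piFinset (fun i : Fin n => Finset.Icc (⌊p i⌋ - 3) (⌊p i⌋ + 2))

theorem near_card (p : EuclideanSpace ℝ (Fin n)) : (near p).card = 6 ^ n := by
  unfold near
  rw [Fintype.card_piFinset]
  have h : ∀ i : Fin n, (Finset.Icc (⌊p i⌋ - 3) (⌊p i⌋ + 2)).card = 6 := by
    intro i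
    rw [Int.card_Icc]
    omega
  simp [h]

theorem mem_near {p x : EuclideanSpace ℝ (Fin n)} {z : Fin n → ℤ} (hx : x ∈ bx z)
    (hd : dist x p ≤ 1) : z ∈ near p := by
  unfold near
  rw [Fintype.mem_piFinset]
  intro i
  rw [Finset.mem_Icc]
  have h1 := hx i
  have h2 : |x i - p i| ≤ 1 := by
    have := coord_le (x - p) i
    rw [← dist_eq_norm] at this
    simpa using this.trans hd
  have h3 := abs_le.1 h2
  have h4 := Int.floor_le (p i)
  have h5 := Int.lt_floor_add_one (p i)
  constructor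
  · have : (⌊p i⌋ : ℝ) - 3 ≤ z i := by linarith
    exact_mod_cast this
  · have : (z i : ℝ) < ⌊p i⌋ + 3 := by linarith
    have : z i < ⌊p i⌋ + 3 := by exact_mod_cast this
    omega

theorem nrm_small {s : ℝ} (hs : 0 < s) {ε : ℝ≥0∞} (hε : ε ≤ 1)
    {K : Set (EuclideanSpace ℝ (Fin n))} (h : Small s ε K) (M : ℕ) :
    Small s ((6 : ℝ≥0∞) ^ n * ε) (nrm K M) := by
  classical
  obtain ⟨t, h1, h2, h3⟩ := h
  have hd : ∀ j, ediam (t j) < 1 := by
    intro j
    have h4 : ediam (t j) ^ s < 1 ^ s := by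
      rw [ENNReal.one_rpow]
      exact (ENNReal.le_tsum j).trans_lt (h3.trans_le hε)
    exact (ENNReal.rpow_lt_rpow_iff hs).1 h4
  set u : (pts n M) × ℕ → Set (EuclideanSpace ℝ (Fin n)) := fun p =>
    if (t p.2 ∩ bx p.1.1).Nonempty then (fun x => x - vz p.1.1) '' t p.2 else ∅ with hu
  refine small_of_countable hs u ?_ ?_ ?_
  · intro p
    rw [hu]
    dsimp only
    split_ifs
    · have e1 : (fun x => x - vz p.1.1) = (Homeomorph.subRight (vz p.1.1)) := rfl
      rw [e1]
      exact (Homeomorph.subRight (vz p.1.1)).isOpenMap _ (h1 p.2)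
    · exact isOpen_empty
  · intro y hy
    obtain ⟨z, hz, x, ⟨hx, hxz⟩, rfl⟩ := mem_iUnion₂.1 hy
    obtain ⟨j, hj⟩ := mem_iUnion.1 (h2 hx)
    refine mem_iUnion.2 ⟨(⟨z, hz⟩, j), ?_⟩
    rw [hu]
    dsimp only
    rw [if_pos ⟨x, hj, hxz⟩]
    exact ⟨x, hj, rfl⟩
  · have h4 : ∀ p : (pts n M) × ℕ, ediam (u p) ^ s =
        if (t p.2 ∩ bx p.1.1).Nonempty then ediam (t p.2) ^ s else 0 := by
      intro p
      rw [hu]
      dsimp only
      split_ifs
      · congr 1
        have e1 : (fun x => x - vz p.1.1) = (IsometryEquiv.subRight (vz p.1.1)) := rfl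
        rw [e1]
        exact (IsometryEquiv.subRight (vz p.1.1)).isometry.ediam_image _
      · rw [ediam_empty, ENNReal.zero_rpow_of_pos hs]
    calc ∑' p, ediam (u p) ^ s
        = ∑' p : (pts n M) × ℕ,
            if (t p.2 ∩ bx p.1.1).Nonempty then ediam (t p.2) ^ s else 0 := tsum_congr h4
      _ = ∑' (z : pts n M) (j : ℕ),
            if (t j ∩ bx z.1).Nonempty then ediam (t j) ^ s else 0 :=
          ENNReal.tsum_prod (f := fun (z : pts n M) (j : ℕ) =>
            if (t j ∩ bx z.1).Nonempty then ediam (t j) ^ s else 0)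
      _ = ∑' (j : ℕ) (z : pts n M),
            if (t j ∩ bx z.1).Nonempty then ediam (t j) ^ s else 0 := ENNReal.tsum_comm
      _ ≤ ∑' j : ℕ, (6 : ℝ≥0∞) ^ n * ediam (t j) ^ s := by
          refine ENNReal.tsum_le_tsum fun j => ?_
          rw [tsum_fintype]
          rcases (t j).eq_empty_or_nonempty with he | ⟨p, hp⟩
          · simp [he]
          calc ∑ z : pts n M, (if (t j ∩ bx z.1).Nonempty then ediam (t j) ^ s else 0)
              = ∑ z ∈ pts n M, (if (t j ∩ bx z).Nonempty then ediam (t j) ^ s else 0) :=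
                Finset.sum_coe_sort (pts n M)
                  (fun z => if (t j ∩ bx z).Nonempty then ediam (t j) ^ s else 0)
            _ = ∑ z ∈ (pts n M).filter (fun z => (t j ∩ bx z).Nonempty), ediam (t j) ^ s := by
                rw [Finset.sum_filter]
            _ ≤ ∑ z ∈ near p, ediam (t j) ^ s := by
                refine Finset.sum_le_sum_of_subset fun z hz => ?_
                rw [Finset.mem_filter] at hz
                obtain ⟨x, hx, hxz⟩ := hz.2
                refine mem_near hxz ?_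
                have h5 : edist x p < 1 := (edist_le_ediam_of_mem hx hp).trans_lt (hd j)
                rw [edist_dist, ENNReal.ofReal_lt_one] at h5
                exact h5.le
            _ = (6 : ℝ≥0∞) ^ n * ediam (t j) ^ s := by
                rw [Finset.sum_const, near_card, nsmul_eq_mul, Nat.cast_pow, Nat.cast_ofNat]
      _ = (6 : ℝ≥0∞) ^ n * ∑' j : ℕ, ediam (t j) ^ s := ENNReal.tsum_mul_left
      _ < (6 : ℝ≥0∞) ^ n * ε := by
          exact ENNReal.mul_lt_mul_right (pow_ne_zero _ (by norm_num))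
            (ENNReal.pow_ne_top (by norm_num)) h3

theorem vol_bU (Z : Finset (Fin n → ℤ)) (f : (Fin n → ℤ) → Set (EuclideanSpace ℝ (Fin n))) :
    volume (⋃ z ∈ Z, f z) ≤ ∑ z ∈ Z, volume (f z) := measure_biUnion_finset_le Z f

theorem ind_le (K : Set (EuclideanSpace ℝ (Fin n))) (M : ℕ) {δ : ℝ} (hδ1 : δ ≤ 1)
    (x : EuclideanSpace ℝ (Fin n)) :
    ∑ z ∈ pts n M, (thickening δ (K ∩ bx z)).indicator (fun _ => (1 : ℝ≥0∞)) x ≤
      (6 : ℝ≥0∞) ^ n * (thickening δ K).indicator (fun _ => (1 : ℝ≥0∞)) x := by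
  classical
  have h1 : ∑ z ∈ pts n M, (thickening δ (K ∩ bx z)).indicator (fun _ => (1 : ℝ≥0∞)) x ≤
      ∑ z ∈ (pts n M).filter (fun z => x ∈ thickening δ (K ∩ bx z)),
        (thickening δ K).indicator (fun _ => (1 : ℝ≥0∞)) x := by
    rw [Finset.sum_filter]
    apply Finset.sum_le_sum
    intro z _
    by_cases hz : x ∈ thickening δ (K ∩ bx z)
    · rw [if_pos hz, indicator_of_mem hz,
        indicator_of_mem (thickening_subset_of_subset δ inter_subset_left hz)]
    · rw [if_neg hz, indicator_of_notMem hz]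
  have h2 : (pts n M).filter (fun z => x ∈ thickening δ (K ∩ bx z)) ⊆ near x := by
    intro z hz
    rw [Finset.mem_filter] at hz
    obtain ⟨y, hy, hxy⟩ := mem_thickening_iff.1 hz.2
    apply mem_near hy.2
    rw [dist_comm]
    exact hxy.le.trans hδ1
  have h3 : (((pts n M).filter (fun z => x ∈ thickening δ (K ∩ bx z))).card : ℝ≥0∞) ≤
      (6 : ℝ≥0∞) ^ n := by
    have h4 := Finset.card_le_card h2
    rw [near_card] at h4
    exact_mod_cast h4
  rw [Finset.sum_const, nsmul_eq_mul] at h1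
  exact h1.trans (mul_le_mul_left h3 _)

theorem nrm_volume {K : Set (EuclideanSpace ℝ (Fin n))} (M : ℕ) {δ : ℝ} (hδ1 : δ ≤ 1) :
    volume (thickening δ (nrm K M)) ≤ (6 : ℝ≥0∞) ^ n * volume (thickening δ K) := by
  have h1 : thickening δ (nrm K M) ⊆
      ⋃ z ∈ pts n M, (fun x => x + vz z) ⁻¹' thickening δ (K ∩ bx z) := by
    intro y hy
    obtain ⟨x, hx, hyx⟩ := mem_thickening_iff.1 hy
    obtain ⟨z, hz, x', hx', rfl⟩ := mem_iUnion₂.1 hx
    simp only [mem_iUnion]
    refine ⟨z, hz, ?_⟩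
    rw [mem_preimage, mem_thickening_iff]
    refine ⟨x', hx', ?_⟩
    have e1 : dist (y + vz z) x' = dist y (x' - vz z) := by
      rw [dist_eq_norm, dist_eq_norm]
      congr 1
      abel
    rw [e1]
    exact hyx
  have h2 : volume (thickening δ (nrm K M)) ≤ ∑ z ∈ pts n M, volume (thickening δ (K ∩ bx z)) := by
    refine (measure_mono h1).trans ((vol_bU (pts n M) _).trans (Finset.sum_le_sum fun z _ => ?_))
    exact (measure_preimage_add_right _ _ _).le
  have h3 : ∀ z, volume (thickening δ (K ∩ bx z)) =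
      ∫⁻ x, (thickening δ (K ∩ bx z)).indicator (fun _ => (1 : ℝ≥0∞)) x := by
    intro z
    rw [lintegral_indicator_const isOpen_thickening.measurableSet, one_mul]
  have h4 : ∑ z ∈ pts n M, volume (thickening δ (K ∩ bx z)) =
      ∫⁻ x, ∑ z ∈ pts n M, (thickening δ (K ∩ bx z)).indicator (fun _ => (1 : ℝ≥0∞)) x := by
    rw [lintegral_finsetSum]
    · exact Finset.sum_congr rfl fun z _ => h3 z
    · intro z _
      exact measurable_const.indicator isOpen_thickening.measurableSet
  have h5 : ∫⁻ x, (6 : ℝ≥0∞) ^ n * (thickening δ K).indicator (fun _ => (1 : ℝ≥0∞)) x =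
      (6 : ℝ≥0∞) ^ n * volume (thickening δ K) := by
    rw [lintegral_const_mul _ (measurable_const.indicator isOpen_thickening.measurableSet),
      lintegral_indicator_const isOpen_thickening.measurableSet, one_mul]
  rw [h4] at h2
  rw [← h5]
  exact h2.trans (lintegral_mono fun x => ind_le K M hδ1 x)

/-- Every Kakeya set can be moved into a fixed ball. -/
theorem exists_nrm {K : Set (EuclideanSpace ℝ (Fin n))} (h : IsKakeya K) :
    ∃ K1 : Set (EuclideanSpace ℝ (Fin n)), IsKakeya K1 ∧ (∀ y ∈ K1, ‖y‖ ≤ 2 * (n : ℝ) + 1) ∧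
      (∀ (s : ℝ) (ε : ℝ≥0∞), 0 < s → ε ≤ 1 → Small s ε K → Small s ((6 : ℝ≥0∞) ^ n * ε) K1) ∧
      ∀ δ : ℝ, 0 < δ → δ ≤ 1 →
        volume (thickening δ K1) ≤ (6 : ℝ≥0∞) ^ n * volume (thickening δ K) := by
  obtain ⟨R0, hR0⟩ := h.1.isBounded.exists_norm_le
  obtain ⟨M, hM⟩ := exists_nat_ge (R0 + 1)
  exact ⟨nrm K M, nrm_kakeya h fun y hy => by linarith [hR0 y hy], fun y hy => nrm_bound hy,
    fun s ε hs hε hK => nrm_small hs hε hK M, fun δ _ hδ1 => nrm_volume M hδ1⟩

end

end Pool.Agent.U530.TK
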